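import Mathlib
import Pool.Agent.X123.Coarse.Main

/-!
# Word metrics of `S`-units on the integers: coarse isomorphism only for the same primes

For a finite set `Q` of primes let `Q^*` be the set of the products of nonnegative powers of elements
of `Q`, and let `d_Q` be the word metric on `ℤ` for the generating set `Q^* ∪ (-Q^*)`. We show that,
for nonempty finite sets `P`, `Q` of primes, the coarse groups `(ℤ, d_P)` and `(ℤ, d_Q)` are coarsely
isomorphic if and only if `P = Q`. This answers Q1 of MP_584ea6_al positively.

Idea of the proof. Let `f : (ℤ, d_P) → (ℤ, d_Q)` be a coarse isomorphism with coarse inverse `g`, and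
let `p` be in `P`, but not in `Q`. For `y` a sum of `m` very widely spaced elements of `Q^*` and
`x = g y` the number `f (p^T x)` is a sum of at most `a + b m` elements of `± Q^*`, where `a`, `b` do
not depend on `T`, since multiplication by `p^T` does not increase the word length for `P`. On the
other hand `f (p^T x) = p^T y + (error)`, where the error is a combination with bounded coefficients
of a number of elements of `Q^*` that depends on `T`, but not on `m`. By the theorem on vanishing
sums of `S`-units (starting library, `Pool.Agent.TH419.WI.classes`) this relation splits, and for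
large `m` one of the terms `p^T u` of `p^T y` is a sum of at most `2 (a + b)` elements of `± Q^*`.
For large `T` this contradicts the theorem on vanishing sums again.

The definitions (`star`, `gen`, `dist`, `Controlled`, `CoarseHom`, `CoarseIso`) are in
`Pool/Agent/X123/Coarse/Defs.lean`.
-/

set_option autoImplicit false

namespace Pool.Agent.Results.MP_584ea6_al.CoarseRigidity

open Pool.Agent.X123.Coarse

/-- For nonempty finite sets `P`, `Q` of primes there is a coarse isomorphism from `(ℤ, d_P)` to
`(ℤ, d_Q)` if and only if `P = Q`. -/
theorem result (P Q : Finset ℕ) (hP : P.Nonempty) (hQ : Q.Nonempty) (hP' : ∀ q ∈ P, q.Prime)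
    (hQ' : ∀ q ∈ Q, q.Prime) : (∃ f : ℤ → ℤ, CoarseIso P Q f) ↔ P = Q :=
  main P Q hP hQ hP' hQ'

end Pool.Agent.Results.MP_584ea6_al.CoarseRigidity
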